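import Pool.Agent.H74.OLP.Targets2

/-!
# MP_781dd6_co, row DFI: faces have length at least five (helper36)
-/

set_option autoImplicit false
set_option linter.unusedSectionVars false
open scoped Classical
open Finset

namespace Pool.Agent.H36.OLP

open Pool.Agent.H74.OLP

lemma three {E : Type} {a b c a1 a2 e e' : E} (h1 : a1 = a ∨ a1 = b ∨ a1 = c)
    (h2 : a2 = a ∨ a2 = b ∨ a2 = c) (he : e = a ∨ e = b ∨ e = c)
    (he' : e' = a ∨ e' = b ∨ e' = c) (h12 : a1 ≠ a2) (n1 : e ≠ a1) (n2 : e ≠ a2)
    (n3 : e' ≠ a1) (n4 : e' ≠ a2) : e = e' := by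
  rcases he with he | he | he <;> rcases he' with he' | he' | he' <;>
    first
    | exact he.trans he'.symm
    | (exfalso
       rcases h1 with h1 | h1 | h1 <;> rcases h2 with h2 | h2 | h2 <;>
        first
        | exact h12 (h1.trans h2.symm)
        | exact n1 (he.trans h1.symm)
        | exact n2 (he.trans h2.symm)
        | exact n3 (he'.trans h1.symm)
        | exact n4 (he'.trans h2.symm))

theorem pf_DFI : T_DFI := by
  intro V E F _ _ _ M hOK hPar hFive hV f
  by_contra hcon
  push Not at hcon
  have hd3 := hOK.d3 f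
  set W : Finset V := (range (M.d f)).image (fun i : ℕ => M.vt f (i : ℤ)) with hW
  have hWc : W.card = M.d f := by
    rw [hW, card_image_of_injOn, card_range]
    intro i hi j hj hij
    rw [mem_coe, mem_range] at hi hj
    have h1 := (hOK.vt_eq f i j).1 hij
    have h2 : (i : ℤ) - j = 0 := Int.eq_zero_of_abs_lt_dvd h1 (by
      rw [abs_lt]
      constructor <;> omega)
    omega
  have hmem : ∀ i : ℤ, M.vt f i ∈ W := by
    intro i
    have hdpos : (0 : ℤ) < M.d f := by omega
    rw [hW, mem_image]
    refine ⟨(i % (M.d f : ℤ)).toNat, ?_, ?_⟩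
    · rw [mem_range]
      have h1 := Int.emod_nonneg i hdpos.ne'
      have h2 := Int.emod_lt_of_pos i hdpos
      omega
    · have h1 := Int.emod_nonneg i hdpos.ne'
      rw [Int.toNat_of_nonneg h1, hOK.vt_eq]
      rw [← Int.dvd_neg, neg_sub]
      exact Int.dvd_self_sub_emod
  have hcomp : 3 ≤ Wᶜ.card := by
    rw [card_compl, hWc]
    omega
  have h5 := hFive W (by omega) hcomp
  have hle : (M.cut W).card ≤ W.card := by
    refine card_le_card_of_injOn (fun e => if M.s e ∈ W then M.s e else M.t e) ?_ ?_
    · intro e he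
      rw [mem_coe, CMap.cut, mem_filter] at he
      rw [mem_coe]
      rcases he.2 with h | h
      · simp only [if_pos h.1]
        exact h.1
      · simp only [if_neg h.2]
        exact h.1
    · intro e he e' he' hee
      rw [mem_coe, CMap.cut, mem_filter] at he he'
      simp only at hee
      have hend : ∀ e : E, ((M.s e ∈ W ∧ M.t e ∉ W) ∨ (M.t e ∈ W ∧ M.s e ∉ W)) →
          M.OnV e (if M.s e ∈ W then M.s e else M.t e) ∧
            (if M.s e ∈ W then M.s e else M.t e) ∈ W := by
        intro e he
        rcases he with h | h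
        · rw [if_pos h.1]
          exact ⟨Or.inl rfl, h.1⟩
        · rw [if_neg h.2]
          exact ⟨Or.inr rfl, h.1⟩
      have h1 := hend e he.2
      have h2 := hend e' he'.2
      rw [← hee] at h2
      set v := if M.s e ∈ W then M.s e else M.t e with hv
      obtain ⟨i, _, hi⟩ := mem_image.1 h1.2
      have hin : ∀ k, M.s (M.ed f k) ∈ W ∧ M.t (M.ed f k) ∈ W := by
        intro k
        rcases hOK.jn f k with h | h
        · exact ⟨h.1 ▸ hmem _, h.2 ▸ hmem _⟩
        · exact ⟨h.2 ▸ hmem _, h.1 ▸ hmem _⟩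
      have hnot : ∀ e : E, ((M.s e ∈ W ∧ M.t e ∉ W) ∨ (M.t e ∈ W ∧ M.s e ∉ W)) →
          ∀ k, e ≠ M.ed f k := by
        rintro e he k rfl
        rcases he with h | h
        · exact h.2 (hin k).2
        · exact h.2 (hin k).1
      have ha2 : M.OnV (M.ed f i) v := by
        rcases hOK.jn f i with h | h
        · exact Or.inl (h.1.trans hi)
        · exact Or.inr (h.1.trans hi)
      have ha1 : M.OnV (M.ed f ((i : ℤ) - 1)) v := by
        rcases hOK.jn f ((i : ℤ) - 1) with h | h
        · refine Or.inr (h.2.trans ?_)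
          rw [sub_add_cancel]
          exact hi
        · refine Or.inl (h.2.trans ?_)
          rw [sub_add_cancel]
          exact hi
      have h12 : M.ed f ((i : ℤ) - 1) ≠ M.ed f i := by
        intro h
        rw [hOK.ed_eq] at h
        have h0 : (i : ℤ) - 1 - i = -1 := by ring
        rw [h0, Int.dvd_neg] at h
        have h3 := Int.le_of_dvd (by norm_num : (0 : ℤ) < 1) h
        omega
      obtain ⟨a, b, c, _, _, _, _, _, _, _, _, _, ht, _⟩ := hOK.tri v
      exact three ((ht _).1 ha1) ((ht _).1 ha2) ((ht _).1 h1.1) ((ht _).1 h2.1) h12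
        (hnot e he.2 _) (hnot e he.2 _) (hnot e' he'.2 _) (hnot e' he'.2 _)
  omega

end Pool.Agent.H36.OLP
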